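import Pool.Agent.Q267.Cubic.Main

/-!
Evaluation of the truncated cubic modular equation at `q = 2 ε`, `ε = (3 + √13)/2`.
-/

namespace Pool.Agent.Q267.Cubic

open Polynomial Finset

/-- the truncated series `∑ k ≤ m, (m choose k)^2 x^k`. -/
def P {K : Type*} [Field K] (m : ℕ) (x : K) : K :=
  ∑ k ∈ range (m + 1), ((m.choose k : ℕ) : K) ^ 2 * x ^ k

theorem eval_Phi {K : Type*} [Field K] (m : ℕ) (A B : K[X]) (q a b : K)
    (hA : A.eval q = a * b) (hB : B.eval q = b) :
    (Phi m 0 A B).eval q = b ^ m * P m a := by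
  unfold Phi P
  rw [eval_finsetSum, mul_sum]
  refine sum_congr rfl fun k hk => ?_
  have hk' : k ≤ m := by simpa [Nat.lt_succ_iff] using hk
  rw [eval_mul, eval_mul, eval_C, eval_pow, eval_pow, hA, hB, pow_zero, mul_one, mul_pow]
  have : b ^ m = b ^ k * b ^ (m - k) := by rw [← pow_add]; congr 1; omega
  rw [this]
  ring

variable (p : ℕ) [hp : Fact p.Prime]

theorem P_eq (m : ℕ) (hpm : p = 2 * m + 1) (hm : 0 < m) (h3 : (3 : ZMod p) ≠ 0) (e : ZMod p)
    (he : e ^ 2 = 3 * e + 1) : P m (16 * (3 * e + 1)) = P m (16 * (10 - 3 * e)) := by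
  have hb : (1 + 4 * e) ≠ 0 := by
    intro h
    apply h3
    linear_combination (-(13 - 4 * e)) * h + (-16) * he
  have hk := congrArg (eval (2 * e)) (Phi_eq (K := ZMod p) p m hpm hm)
  rw [eval_Phi m (AL : (ZMod p)[X]) BL (2 * e) (16 * (10 - 3 * e)) ((1 + 4 * e) ^ 3),
    eval_Phi m (AR : (ZMod p)[X]) BR (2 * e) (16 * (3 * e + 1)) (1 + 4 * e)] at hk
  · have h1 : (1 + 4 * e) ^ (2 * m) = 1 := by
      have h := ZMod.pow_card_sub_one_eq_one hb
      have h' : p - 1 = 2 * m := by omega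
      rwa [h'] at h
    have h2 : ((1 + 4 * e) ^ 3) ^ m = (1 + 4 * e) ^ m := by
      rw [← pow_mul, show 3 * m = 2 * m + m by ring, pow_add, h1, one_mul]
    rw [h2] at hk
    exact (mul_left_cancel₀ (pow_ne_zero m hb) hk).symm
  · simp only [AR, eval_mul, eval_pow, eval_add, eval_X, eval_ofNat]
    linear_combination 16 * (e ^ 2 + 4 * e + 1) * he
  · simp only [BR, eval_mul, eval_add, eval_X, eval_ofNat, eval_one]
    ring
  · simp only [AL, eval_mul, eval_pow, eval_add, eval_X, eval_ofNat]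
    linear_combination 16 * (193 * e ^ 2 + 86 * e + 10) * he
  · simp only [BL, eval_mul, eval_pow, eval_add, eval_X, eval_ofNat, eval_one]
    ring

/-- `C(2k,k) = (-4)^k C(m,k)` modulo `p = 2m+1` for `k ≤ m`. -/
theorem central (m : ℕ) (hpm : p = 2 * m + 1) (k : ℕ) (hk : k ≤ m) :
    ((k.centralBinom : ℕ) : ZMod p) = (-4) ^ k * ((m.choose k : ℕ) : ZMod p) := by
  have hm' : (2 : ZMod p) * m + 1 = 0 := by
    have h : ((2 * m + 1 : ℕ) : ZMod p) = 0 := by
      rw [ZMod.natCast_eq_zero_iff, ← hpm]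
    push_cast at h
    exact h
  induction k with
  | zero => simp
  | succ k ih =>
    have ih := ih (by omega)
    have h1 := Nat.succ_mul_centralBinom_succ k
    have h2 := Nat.choose_succ_right_eq m k
    have h1' : (((k + 1) * (k + 1).centralBinom : ℕ) : ZMod p) =
      ((2 * (2 * k + 1) * k.centralBinom : ℕ) : ZMod p) := by rw [h1]
    have h2' : ((m.choose (k + 1) * (k + 1) : ℕ) : ZMod p) =
      ((m.choose k * (m - k) : ℕ) : ZMod p) := by rw [h2]
    have hk0 : ((k : ZMod p) + 1) ≠ 0 := by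
      intro h
      have h' : ((k + 1 : ℕ) : ZMod p) = 0 := by push_cast; exact h
      rw [ZMod.natCast_eq_zero_iff] at h'
      have := Nat.le_of_dvd (Nat.succ_pos _) h'
      omega
    rw [Nat.cast_mul, Nat.cast_mul, Nat.cast_sub (by omega)] at h2'
    push_cast at h1' h2'
    apply mul_left_cancel₀ hk0
    rw [pow_succ]
    linear_combination h1' + 2 * (2 * (k : ZMod p) + 1) * ih + 4 * (-4) ^ k * h2'
      + 2 * (-4) ^ k * ((m.choose k : ℕ) : ZMod p) * hm'

end Pool.Agent.Q267.Cubic
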