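import Pool.Agent.Q267.Cubic.Poly

/-!
Uniqueness of the solution of the differential equation below degree `p`, symmetry of the two
polynomials, and the resulting congruence between truncated hypergeometric polynomials.
-/

namespace Pool.Agent.Q267.Cubic

open Polynomial Finset

variable {K : Type*} [Field K]

theorem Op_eq (y : K[X]) : Op y =
    derivative ((1 - X ^ 2) * (2 * X + 5 * X ^ 2 + 2 * X ^ 3) * derivative y)
      + (2 - 12 * X ^ 2 - 8 * X ^ 3) * y := by
  unfold Op
  simp only [derivative_mul, derivative_add, derivative_sub, derivative_pow, derivative_X,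
    derivative_ofNat, derivative_one, map_ofNat, Nat.cast_ofNat]
  ring

theorem Op_sub (y z : K[X]) : Op (y - z) = Op y - Op z := by
  unfold Op
  simp only [derivative_sub]
  ring

theorem step (p : ℕ) [CharP K p] (h2 : (2 : K) ≠ 0) (Y : K[X]) (hY : Op Y = 0) (j : ℕ)
    (hj : j + 1 < p) (h : X ^ (j + 1) ∣ Y) : X ^ (j + 2) ∣ Y := by
  obtain ⟨Z, rfl⟩ := h
  set W : K[X] := C ((j + 1 : ℕ) : K) * Z + X * derivative Z with hW
  set Q : K[X] := (1 - X ^ 2) * (2 + 5 * X + 2 * X ^ 2) with hQ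
  have e1 : derivative (X ^ (j + 1) * Z) = X ^ j * W := by
    rw [derivative_mul, derivative_X_pow, hW, Nat.add_sub_cancel]
    ring
  have e2 : (1 - X ^ 2) * (2 * X + 5 * X ^ 2 + 2 * X ^ 3) * derivative (X ^ (j + 1) * Z) =
      X ^ (j + 1) * (Q * W) := by
    rw [e1, hQ]; ring
  rw [Op_eq, e2, derivative_mul, derivative_X_pow, Nat.add_sub_cancel] at hY
  have e3 : X ^ j * (C ((j + 1 : ℕ) : K) * (Q * W) + X * derivative (Q * W)
      + X * ((2 - 12 * X ^ 2 - 8 * X ^ 3) * Z)) = 0 := by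
    rw [← hY]; ring
  have e4 := (mul_eq_zero.1 e3).resolve_left (pow_ne_zero _ X_ne_zero)
  have e5 := congrArg (eval (0 : K)) e4
  simp only [eval_add, eval_mul, eval_C, eval_X, zero_mul, add_zero, eval_zero, hW, hQ, eval_sub,
    eval_one, eval_pow, eval_ofNat] at e5
  have hj0 : ((j + 1 : ℕ) : K) ≠ 0 := by
    intro h0
    rw [CharP.cast_eq_zero_iff K p] at h0
    exact absurd (Nat.le_of_dvd (Nat.succ_pos _) h0) (by omega)
  have e6 : eval 0 Z = 0 := by
    by_contra hne
    apply hne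
    have : ((j + 1 : ℕ) : K) * (2 * (((j + 1 : ℕ) : K) * eval 0 Z)) = 0 := by
      linear_combination e5
    rcases mul_eq_zero.1 this with h | h
    · exact absurd h hj0
    · rcases mul_eq_zero.1 h with h | h
      · exact absurd h h2
      · exact (mul_eq_zero.1 h).resolve_left hj0
  have e7 : X ∣ Z := by
    rw [X_dvd_iff, coeff_zero_eq_eval_zero]; exact e6
  obtain ⟨T, rfl⟩ := e7
  exact ⟨T, by ring⟩

theorem all_steps (p : ℕ) [CharP K p] (h2 : (2 : K) ≠ 0) (Y : K[X]) (hY : Op Y = 0)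
    (h0 : Y.coeff 0 = 0) (j : ℕ) (hj : j < p) : X ^ (j + 1) ∣ Y := by
  induction j with
  | zero => rw [zero_add, pow_one, X_dvd_iff]; exact h0
  | succ j ih => exact step p h2 Y hY j hj (ih (by omega))

theorem reflect_sum {ι : Type*} (s : Finset ι) (f : ι → K[X]) (N : ℕ) :
    reflect N (∑ i ∈ s, f i) = ∑ i ∈ s, reflect N (f i) := by
  classical
  induction s using Finset.induction_on with
  | empty => simp
  | insert a s ha ih => rw [sum_insert ha, sum_insert ha, reflect_add, ih]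

theorem reflect_pow' {A B : K[X]} (hA : A.natDegree ≤ 4) (h : reflect 4 A = B) (k : ℕ) :
    reflect (4 * k) (A ^ k) = B ^ k := by
  induction k with
  | zero => simp
  | succ k ih =>
    have hd : (A ^ k).natDegree ≤ 4 * k := by
      refine natDegree_pow_le.trans ?_
      calc k * A.natDegree ≤ k * 4 := Nat.mul_le_mul_left _ hA
        _ = 4 * k := mul_comm _ _
    rw [pow_succ, mul_add, mul_one, reflect_mul _ _ hd hA, ih, h, pow_succ]

theorem natDegree_pow_le' {A : K[X]} (hA : A.natDegree ≤ 4) (k : ℕ) :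
    (A ^ k).natDegree ≤ 4 * k := by
  refine natDegree_pow_le.trans ?_
  calc k * A.natDegree ≤ k * 4 := Nat.mul_le_mul_left _ hA
    _ = 4 * k := mul_comm _ _

theorem reflect_Phi {A B : K[X]} (hA : A.natDegree ≤ 4) (hB : B.natDegree ≤ 4)
    (h1 : reflect 4 A = B) (h2 : reflect 4 B = A) (m : ℕ) :
    reflect (4 * m) (Phi m 0 A B) = Phi m 0 A B := by
  unfold Phi
  rw [reflect_sum]
  have e : ∀ k ∈ range (m + 1), reflect (4 * m)
      (C (((m.choose k : ℕ) : K) ^ 2 * (k : K) ^ 0) * A ^ k * B ^ (m - k)) =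
      C (((m.choose (m - k) : ℕ) : K) ^ 2 * ((m - k : ℕ) : K) ^ 0) * A ^ (m - k)
        * B ^ (m - (m - k)) := by
    intro k hk
    have hk' : k ≤ m := by simpa [Nat.lt_succ_iff] using hk
    have e1 : 4 * m = 4 * k + 4 * (m - k) := by omega
    rw [mul_assoc, reflect_C_mul, e1, reflect_mul _ _ (natDegree_pow_le' hA k)
      (natDegree_pow_le' hB (m - k)), reflect_pow' hA h1, reflect_pow' hB h2,
      Nat.sub_sub_self hk', Nat.choose_symm hk']
    simp only [pow_zero]
    ring
  rw [sum_congr rfl e]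
  exact sum_range_reflect
    (fun k => C (((m.choose k : ℕ) : K) ^ 2 * (k : K) ^ 0) * A ^ k * B ^ (m - k)) (m + 1)

theorem natDegree_Phi {A B : K[X]} (hA : A.natDegree ≤ 4) (hB : B.natDegree ≤ 4) (m : ℕ) :
    (Phi m 0 A B).natDegree ≤ 4 * m := by
  unfold Phi
  refine natDegree_sum_le_of_forall_le _ _ fun k hk => ?_
  have hk' : k ≤ m := by simpa [Nat.lt_succ_iff] using hk
  refine natDegree_mul_le.trans ?_
  have h1 : (C (((m.choose k : ℕ) : K) ^ 2 * (k : K) ^ 0) * A ^ k).natDegree ≤ 4 * k :=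
    (natDegree_C_mul_le _ _).trans (natDegree_pow_le' hA k)
  have h2 := natDegree_pow_le' hB (m - k)
  omega

theorem AL_exp : (AL : K[X]) = C 8 * X ^ 1 + C 12 * X ^ 2 + C 6 * X ^ 3 + C 1 * X ^ 4 := by
  unfold AL
  simp only [map_ofNat, C_1]
  ring

theorem BL_exp : (BL : K[X]) = C 1 * X ^ 0 + C 6 * X ^ 1 + C 12 * X ^ 2 + C 8 * X ^ 3 := by
  unfold BL
  simp only [map_ofNat, C_1]
  ring

theorem AR_exp : (AR : K[X]) = C 2 * X ^ 3 + C 1 * X ^ 4 := by
  unfold AR
  simp only [map_ofNat, C_1]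
  ring

theorem BR_exp : (BR : K[X]) = C 1 * X ^ 0 + C 2 * X ^ 1 := by
  unfold BR
  simp only [map_ofNat, C_1]
  ring

theorem rev0 : revAt 4 0 = 4 := revAt_le (by norm_num)
theorem rev1 : revAt 4 1 = 3 := revAt_le (by norm_num)
theorem rev2 : revAt 4 2 = 2 := revAt_le (by norm_num)
theorem rev3 : revAt 4 3 = 1 := revAt_le (by norm_num)
theorem rev4 : revAt 4 4 = 0 := revAt_le (by norm_num)

theorem reflAL : reflect 4 (AL : K[X]) = BL := by
  rw [AL_exp, BL_exp]
  simp only [reflect_add, reflect_C_mul_X_pow, rev1, rev2, rev3, rev4]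
  ring

theorem reflBL : reflect 4 (BL : K[X]) = AL := by
  rw [AL_exp, BL_exp]
  simp only [reflect_add, reflect_C_mul_X_pow, rev0, rev1, rev2, rev3]
  ring

theorem reflAR : reflect 4 (AR : K[X]) = BR := by
  rw [AR_exp, BR_exp]
  simp only [reflect_add, reflect_C_mul_X_pow, rev3, rev4]
  ring

theorem reflBR : reflect 4 (BR : K[X]) = AR := by
  rw [AR_exp, BR_exp]
  simp only [reflect_add, reflect_C_mul_X_pow, rev0, rev1]
  ring

theorem degAL : (AL : K[X]).natDegree ≤ 4 := by
  unfold AL; compute_degree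

theorem degBL : (BL : K[X]).natDegree ≤ 4 := by
  unfold BL
  have : ((1 + 2 * X : K[X]) ^ 3).natDegree ≤ 3 := by compute_degree
  omega

theorem degAR : (AR : K[X]).natDegree ≤ 4 := by
  unfold AR; compute_degree

theorem degBR : (BR : K[X]).natDegree ≤ 4 := by
  unfold BR
  have : ((1 + 2 * X : K[X])).natDegree ≤ 1 := by compute_degree
  omega

theorem Phi_coeff_zero {A B : K[X]} (hA : A.coeff 0 = 0) (hB : B.coeff 0 = 1) (m : ℕ) :
    (Phi m 0 A B).coeff 0 = 1 := by
  unfold Phi
  rw [finsetSum_coeff, sum_eq_single 0]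
  · simp [coeff_zero_eq_eval_zero] at hB ⊢
    simp [hB]
  · intro k _ hk
    rw [coeff_zero_eq_eval_zero] at hA ⊢
    rw [eval_mul, eval_mul, eval_pow, hA, zero_pow hk]
    simp
  · simp

theorem cz {Y : K[X]} {n i : ℕ} (h : X ^ n ∣ Y) (hi : i < n) : Y.coeff i = 0 :=
  X_pow_dvd_iff.1 h i hi

/-- **The truncated cubic modular equation.** -/
theorem Phi_eq (p m : ℕ) [CharP K p] (hp : p = 2 * m + 1) (hm : 0 < m) :
    Phi m 0 (AL : K[X]) BL = Phi m 0 AR BR := by
  have hm' : (2 : K) * m + 1 = 0 := by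
    have : ((p : ℕ) : K) = 0 := CharP.cast_eq_zero K p
    rw [hp] at this
    push_cast at this
    exact this
  have h2 : (2 : K) ≠ 0 := by
    intro h
    have : ((2 : ℕ) : K) = 0 := by simpa using h
    rw [CharP.cast_eq_zero_iff K p] at this
    have := Nat.le_of_dvd (by norm_num) this
    omega
  have hOp : Op (Phi m 0 (AL : K[X]) BL - Phi m 0 AR BR) = 0 := by
    rw [Op_sub, opL m hm', opR m hm', sub_zero]
  have hc0 : (Phi m 0 (AL : K[X]) BL - Phi m 0 AR BR).coeff 0 = 0 := by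
    rw [coeff_sub, Phi_coeff_zero, Phi_coeff_zero, sub_self]
    · simp [AR]
    · simp [BR]
    · simp [AL]
    · rw [coeff_zero_eq_eval_zero]; simp [BL]
  have hdiv := all_steps p h2 _ hOp hc0 (2 * m) (by omega)
  rw [← sub_eq_zero]
  ext i
  rw [coeff_zero]
  rcases lt_or_ge i (2 * m + 1) with hi | hi
  · exact cz hdiv hi
  · rcases le_or_gt i (4 * m) with hi2 | hi2
    · have hr : reflect (4 * m) (Phi m 0 (AL : K[X]) BL - Phi m 0 AR BR) =
          Phi m 0 (AL : K[X]) BL - Phi m 0 AR BR := by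
        rw [sub_eq_add_neg, ← neg_one_mul, show (-1 : K[X]) = C (-1) by simp, reflect_add,
          reflect_C_mul, reflect_Phi degAL degBL reflAL reflBL,
          reflect_Phi degAR degBR reflAR reflBR]
      rw [← hr, coeff_reflect, revAt_le hi2]
      exact cz hdiv (by omega)
    · apply coeff_eq_zero_of_natDegree_lt
      refine lt_of_le_of_lt ?_ hi2
      refine (natDegree_sub_le _ _).trans (max_le ?_ ?_)
      · exact natDegree_Phi degAL degBL m
      · exact natDegree_Phi degAR degBR m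

end Pool.Agent.Q267.Cubic
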