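import Mathlib

/-!
The cubic modular equation for truncated hypergeometric polynomials modulo a prime.

`Phi m j A B = ∑ k^j (m choose k)^2 A^k B^(m-k)` and the first order system it satisfies.
-/

namespace Pool.Agent.Q267.Cubic

open Polynomial Finset

variable {K : Type*} [Field K]

/-- `∑ k ≤ m, k^j (m choose k)^2 A^k B^(m-k)`. -/
noncomputable def Phi (m j : ℕ) (A B : K[X]) : K[X] :=
  ∑ k ∈ range (m + 1), C (((m.choose k : ℕ) : K) ^ 2 * (k : K) ^ j) * A ^ k * B ^ (m - k)

theorem mul_pow_pred (A : K[X]) (k : ℕ) : A * (C (k : K) * A ^ (k - 1)) = C (k : K) * A ^ k := by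
  rcases k with _ | k
  · simp
  · simp only [Nat.add_sub_cancel]; ring

/-- the derivative of `Phi`. -/
theorem deriv_rel (m j : ℕ) (A B : K[X]) :
    A * B * derivative (Phi m j A B) =
      (derivative A * B - A * derivative B) * Phi m (j + 1) A B
        + C (m : K) * A * derivative B * Phi m j A B := by
  unfold Phi
  rw [derivative_sum, mul_sum, mul_sum, mul_sum, ← sum_add_distrib]
  refine sum_congr rfl fun k hk => ?_
  have hk' : k ≤ m := by simpa [Nat.lt_succ_iff] using hk
  have e1 : derivative (C (((m.choose k : ℕ) : K) ^ 2 * (k : K) ^ j) * A ^ k * B ^ (m - k)) =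
      C (((m.choose k : ℕ) : K) ^ 2 * (k : K) ^ j) *
        ((C (k : K) * A ^ (k - 1) * derivative A) * B ^ (m - k)
          + A ^ k * (C ((m - k : ℕ) : K) * B ^ (m - k - 1) * derivative B)) := by
    rw [derivative_mul, derivative_mul, derivative_C, derivative_pow, derivative_pow]
    ring
  rw [e1]
  have h1 := mul_pow_pred A k
  have h2 := mul_pow_pred B (m - k)
  have h3 : (C ((m - k : ℕ) : K) : K[X]) = C (m : K) - C (k : K) := by
    rw [Nat.cast_sub hk', C_sub]
  have h4 : (C (((m.choose k : ℕ) : K) ^ 2 * (k : K) ^ (j + 1)) : K[X]) =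
      C (((m.choose k : ℕ) : K) ^ 2 * (k : K) ^ j) * C (k : K) := by
    rw [← C_mul]; congr 1; ring
  rw [h4]
  rw [h3] at h2 ⊢
  linear_combination
    (C (((m.choose k : ℕ) : K) ^ 2 * (k : K) ^ j) * derivative A * B ^ (m - k) * B) * h1
    + (C (((m.choose k : ℕ) : K) ^ 2 * (k : K) ^ j) * derivative B * A ^ k * A) * h2

/-- the contiguous relation. -/
theorem contig (m : ℕ) (A B : K[X]) :
    B * Phi m 2 A B =
      A * (C (m : K) ^ 2 * Phi m 0 A B - 2 * C (m : K) * Phi m 1 A B + Phi m 2 A B) := by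
  have key : ∀ k : ℕ, k ≤ m → (((m.choose (k + 1) : ℕ) : K)) * ((k : K) + 1) =
      ((m.choose k : ℕ) : K) * ((m : K) - k) := by
    intro k hk
    have h := Nat.choose_succ_right_eq m k
    have h' : ((m.choose (k + 1) * (k + 1) : ℕ) : K) = ((m.choose k * (m - k) : ℕ) : K) := by
      rw [h]
    rw [Nat.cast_mul, Nat.cast_mul, Nat.cast_sub hk] at h'
    push_cast at h'
    exact h'
  have hR : (C (m : K) ^ 2 * Phi m 0 A B - 2 * C (m : K) * Phi m 1 A B + Phi m 2 A B) =
      ∑ k ∈ range m, C (((m.choose k : ℕ) : K) ^ 2 * ((m : K) - k) ^ 2) * A ^ k * B ^ (m - k) := by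
    have : (C (m : K) ^ 2 * Phi m 0 A B - 2 * C (m : K) * Phi m 1 A B + Phi m 2 A B) =
      ∑ k ∈ range (m + 1),
        C (((m.choose k : ℕ) : K) ^ 2 * ((m : K) - k) ^ 2) * A ^ k * B ^ (m - k) := by
      unfold Phi
      rw [mul_sum, mul_sum, ← sum_sub_distrib, ← sum_add_distrib]
      refine sum_congr rfl fun k _ => ?_
      simp only [C_mul, C_pow, C_sub]
      ring
    rw [this, sum_range_succ]
    simp
  have hL : B * Phi m 2 A B =
      ∑ k ∈ range m, C (((m.choose (k + 1) : ℕ) : K) ^ 2 * ((k : K) + 1) ^ 2) * A ^ (k + 1)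
        * B ^ (m - k) := by
    unfold Phi
    rw [mul_sum, sum_range_succ']
    simp only [Nat.cast_add, Nat.cast_one, Nat.cast_zero]
    rw [show (C (((m.choose 0 : ℕ) : K) ^ 2 * (0 : K) ^ 2) : K[X]) = 0 by simp]
    rw [zero_mul, zero_mul, mul_zero, add_zero]
    refine sum_congr rfl fun k hk => ?_
    have hk' : k < m := by simpa using hk
    have : m - k = (m - (k + 1)) + 1 := by omega
    rw [this, pow_succ B]
    ring
  rw [hR, hL, mul_sum]
  refine sum_congr rfl fun k hk => ?_
  have hk' : k ≤ m := le_of_lt (by simpa using hk)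
  have h := key k hk'
  have h2 : ((m.choose (k + 1) : ℕ) : K) ^ 2 * ((k : K) + 1) ^ 2 =
      ((m.choose k : ℕ) : K) ^ 2 * ((m : K) - k) ^ 2 := by
    rw [← mul_pow, h, mul_pow]
  rw [h2]
  ring

/-- second equation of the system. -/
theorem deriv_rel' (m : ℕ) (A B : K[X]) (hA : A ≠ 0) :
    B * (B - A) * derivative (Phi m 1 A B) =
      (derivative A * B - A * derivative B) *
        (C (m : K) ^ 2 * Phi m 0 A B - 2 * C (m : K) * Phi m 1 A B)
        + C (m : K) * derivative B * (B - A) * Phi m 1 A B := by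
  apply mul_left_cancel₀ hA
  have h1 := deriv_rel m 1 A B
  have h2 := contig m A B
  rw [show (1 + 1 : ℕ) = 2 from rfl] at h1
  linear_combination (B - A) * h1 + (derivative A * B - A * derivative B) * h2

theorem X_add_two_ne : (2 + X : K[X]) ≠ 0 := by
  intro h
  have := congrArg (fun f : K[X] => f.coeff 1) h
  simp at this

theorem one_add_two_ne : (1 + 2 * X : K[X]) ≠ 0 := by
  intro h
  have := congrArg (fun f : K[X] => f.eval 0) h
  simp at this

theorem one_sub_ne : (1 - X : K[X]) ≠ 0 := by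
  intro h
  have := congrArg (fun f : K[X] => f.eval 0) h
  simp at this

theorem one_add_ne : (1 + X : K[X]) ≠ 0 := by
  intro h
  have := congrArg (fun f : K[X] => f.eval 0) h
  simp at this

/-- the operator of the differential equation. -/
noncomputable def Op (y : K[X]) : K[X] :=
  (1 - X ^ 2) * ((2 + 10 * X + 6 * X ^ 2) * derivative y
      + (2 * X + 5 * X ^ 2 + 2 * X ^ 3) * derivative (derivative y))
    - 2 * X * (2 * X + 5 * X ^ 2 + 2 * X ^ 3) * derivative y
    + (2 - 12 * X ^ 2 - 8 * X ^ 3) * y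

noncomputable def AL : K[X] := X * (2 + X) ^ 3
noncomputable def BL : K[X] := (1 + 2 * X) ^ 3
noncomputable def AR : K[X] := X ^ 3 * (2 + X)
noncomputable def BR : K[X] := 1 + 2 * X

theorem dAL : derivative (AL : K[X]) = (2 + X) ^ 3 + 3 * X * (2 + X) ^ 2 := by
  unfold AL
  rw [derivative_mul, derivative_pow, derivative_add, derivative_X]
  rw [show derivative (2 : K[X]) = 0 by simp]
  simp only [map_ofNat, Nat.cast_ofNat]
  ring

theorem dBL : derivative (BL : K[X]) = 6 * (1 + 2 * X) ^ 2 := by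
  unfold BL
  rw [derivative_pow, derivative_add, derivative_mul, derivative_X, derivative_one]
  rw [show derivative (2 : K[X]) = 0 by simp]
  simp only [map_ofNat, Nat.cast_ofNat]
  ring

theorem dAR : derivative (AR : K[X]) = 6 * X ^ 2 + 4 * X ^ 3 := by
  unfold AR
  rw [derivative_mul, derivative_pow, derivative_add, derivative_X]
  rw [show derivative (2 : K[X]) = 0 by simp]
  simp only [map_ofNat, Nat.cast_ofNat]
  ring

theorem dBR : derivative (BR : K[X]) = 2 := by
  unfold BR
  rw [derivative_add, derivative_mul, derivative_X, derivative_one]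
  rw [show derivative (2 : K[X]) = 0 by simp]
  ring

theorem AL_ne : (AL : K[X]) ≠ 0 := mul_ne_zero X_ne_zero (pow_ne_zero _ X_add_two_ne)
theorem AR_ne : (AR : K[X]) ≠ 0 := mul_ne_zero (pow_ne_zero _ X_ne_zero) X_add_two_ne

theorem opL (m : ℕ) (hm : (2 : K) * m + 1 = 0) : Op (Phi m 0 (AL : K[X]) BL) = 0 := by
  set M : K[X] := C (m : K) with hMdef
  have hM : 2 * M + 1 = 0 := by
    have := congrArg (C : K → K[X]) hm
    rw [C_add, C_mul, C_1, C_0, map_ofNat] at this
    exact this
  set y := Phi m 0 (AL : K[X]) BL with hy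
  set s := Phi m 1 (AL : K[X]) BL with hs
  have e1 : (2 * X + 5 * X ^ 2 + 2 * X ^ 3) * derivative y =
      2 * (1 - X) ^ 2 * s + 6 * M * X * (2 + X) * y := by
    apply mul_left_cancel₀ (pow_ne_zero 2 (mul_ne_zero (X_add_two_ne (K := K)) one_add_two_ne))
    have h := deriv_rel m 0 (AL : K[X]) BL
    rw [← hy, show (0 + 1 : ℕ) = 1 from rfl, ← hs, ← hMdef, dAL, dBL] at h
    unfold AL BL at h
    linear_combination h
  have e2 : (1 + 2 * X) * (1 - X) * (1 + X) * derivative s =
      2 * (2 + X) ^ 2 * (M ^ 2 * y - 2 * M * s) + 6 * M * (1 - X) * (1 + X) * s := by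
    apply mul_left_cancel₀ (pow_ne_zero 2 (mul_ne_zero (one_add_two_ne (K := K)) one_sub_ne))
    have h := deriv_rel' m (AL : K[X]) BL AL_ne
    rw [← hy, ← hs, ← hMdef, dAL, dBL] at h
    unfold AL BL at h
    linear_combination h
  have e2' : 2 * ((1 + 2 * X) * (1 - X) * (1 + X)) * derivative s =
      (2 + X) ^ 2 * (y + 4 * s) - 6 * (1 - X) * (1 + X) * s := by
    linear_combination 2 * e2 + ((2 + X) ^ 2 * y * (2 * M - 1) - 4 * (2 + X) ^ 2 * s
      + 6 * (1 - X ^ 2) * s) * hM
  have e1' : (2 * X + 5 * X ^ 2 + 2 * X ^ 3) * derivative y =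
      2 * (1 - X) ^ 2 * s - 3 * X * (2 + X) * y := by
    linear_combination e1 + 3 * X * (2 + X) * y * hM
  have e3 : (2 + 10 * X + 6 * X ^ 2) * derivative y
      + (2 * X + 5 * X ^ 2 + 2 * X ^ 3) * derivative (derivative y) =
      - 4 * (1 - X) * s + 2 * (1 - X) ^ 2 * derivative s - 3 * (2 + 2 * X) * y
        - 3 * X * (2 + X) * derivative y := by
    have h := congrArg derivative e1'
    simp only [derivative_mul, derivative_add, derivative_sub, derivative_pow, derivative_X,
      derivative_ofNat, derivative_one, map_ofNat, Nat.cast_ofNat] at h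
    linear_combination h
  apply mul_left_cancel₀ (one_add_two_ne (K := K))
  unfold Op
  rw [mul_zero]
  linear_combination (1 + 2 * X) * (1 - X ^ 2) * e3 + (1 - X) ^ 2 * e2'
    + (-2 * (1 + X) * (1 + 2 * X) + 2 * (2 + X) ^ 2 - 3 * (1 - X ^ 2)) * (-e1')

theorem opR (m : ℕ) (hm : (2 : K) * m + 1 = 0) : Op (Phi m 0 (AR : K[X]) BR) = 0 := by
  set M : K[X] := C (m : K) with hMdef
  have hM : 2 * M + 1 = 0 := by
    have := congrArg (C : K → K[X]) hm
    rw [C_add, C_mul, C_1, C_0, map_ofNat] at this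
    exact this
  set y := Phi m 0 (AR : K[X]) BR with hy
  set s := Phi m 1 (AR : K[X]) BR with hs
  have e1 : (2 * X + 5 * X ^ 2 + 2 * X ^ 3) * derivative y =
      6 * (1 + X) ^ 2 * s + 2 * M * X * (2 + X) * y := by
    apply mul_left_cancel₀ (pow_ne_zero 2 (X_ne_zero (R := K)))
    have h := deriv_rel m 0 (AR : K[X]) BR
    rw [← hy, show (0 + 1 : ℕ) = 1 from rfl, ← hs, ← hMdef, dAR, dBR] at h
    unfold AR BR at h
    linear_combination h
  have e2 : (1 + 2 * X) * (1 - X) * (1 + X) * derivative s =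
      6 * X ^ 2 * (M ^ 2 * y - 2 * M * s) + 2 * M * (1 - X) * (1 + X) * s := by
    apply mul_left_cancel₀ (pow_ne_zero 2 (one_add_ne (K := K)))
    have h := deriv_rel' m (AR : K[X]) BR AR_ne
    rw [← hy, ← hs, ← hMdef, dAR, dBR] at h
    unfold AR BR at h
    linear_combination h
  have e2' : 2 * ((1 + 2 * X) * (1 - X) * (1 + X)) * derivative s =
      3 * X ^ 2 * (y + 4 * s) - 2 * (1 - X) * (1 + X) * s := by
    linear_combination 2 * e2 + (3 * X ^ 2 * y * (2 * M - 1) - 12 * X ^ 2 * s
      + 2 * (1 - X ^ 2) * s) * hM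
  have e1' : (2 * X + 5 * X ^ 2 + 2 * X ^ 3) * derivative y =
      6 * (1 + X) ^ 2 * s - X * (2 + X) * y := by
    linear_combination e1 + X * (2 + X) * y * hM
  have e3 : (2 + 10 * X + 6 * X ^ 2) * derivative y
      + (2 * X + 5 * X ^ 2 + 2 * X ^ 3) * derivative (derivative y) =
      12 * (1 + X) * s + 6 * (1 + X) ^ 2 * derivative s - (2 + 2 * X) * y
        - X * (2 + X) * derivative y := by
    have h := congrArg derivative e1'
    simp only [derivative_mul, derivative_add, derivative_sub, derivative_pow, derivative_X,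
      derivative_ofNat, derivative_one, map_ofNat, Nat.cast_ofNat] at h
    linear_combination h
  apply mul_left_cancel₀ (one_add_two_ne (K := K))
  unfold Op
  rw [mul_zero]
  linear_combination (1 + 2 * X) * (1 - X ^ 2) * e3 + 3 * (1 + X) ^ 2 * e2'
    + (2 * (1 + 2 * X) * (1 - X) + 7 * X ^ 2 - 1) * (-e1')

end Pool.Agent.Q267.Cubic
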